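import Pool.Agent.H111R5.CP.Stmts

/-! Task MOM of project H111-CP (the second moment), by helper77. -/

set_option autoImplicit false

open MeasureTheory ProbabilityTheory Filter Finset

namespace Pool.Agent.H77R3.CP

open Pool.Agent.H111R5.CP

/-- insert a slice at time one -/
def ins {S : Type} (z : S × (ℕ → S)) : ℕ → S :=
  fun n => if n = 0 then z.2 0 else if n = 1 then z.1 else z.2 (n - 1)

/-- the times different from one -/
def dd (m : ℕ) : ℕ := if m = 0 then 0 else m + 1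

theorem dd_inj : Function.Injective dd := by
  intro a b h
  unfold dd at h
  split_ifs at h <;> omega

theorem dd_ne (m : ℕ) : dd m ≠ 1 := by
  unfold dd; split_ifs <;> omega

theorem dd_surj (n : ℕ) (hn : n ≠ 1) : ∃ m, dd m = n := by
  unfold dd
  rcases Nat.eq_zero_or_pos n with h | h
  · exact ⟨0, by simp [h]⟩
  · refine ⟨n - 1, ?_⟩
    have : n - 1 ≠ 0 := by omega
    rw [if_neg this]; omega

theorem ins_dd {S : Type} (z : S × (ℕ → S)) (m : ℕ) : ins z (dd m) = z.2 m := by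
  unfold ins dd
  rcases Nat.eq_zero_or_pos m with h | h
  · simp [h]
  · have h0 : m ≠ 0 := by omega
    simp [h0]

theorem ins_one {S : Type} (z : S × (ℕ → S)) : ins z 1 = z.1 := by
  simp [ins]

theorem ins_meas {S : Type} [MeasurableSpace S] : Measurable (ins : S × (ℕ → S) → ℕ → S) := by
  rw [measurable_pi_iff]
  intro n
  unfold ins
  by_cases h0 : n = 0
  · simp only [h0, if_true]
    exact (measurable_pi_apply 0).comp measurable_snd
  · by_cases h1 : n = 1
    · simp only [h1, one_ne_zero, if_false, if_true]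
      exact measurable_fst
    · simp only [h0, h1, if_false]
      exact (measurable_pi_apply (n - 1)).comp measurable_snd

theorem ins_map {S : Type} [MeasurableSpace S] (μ : Measure S) [IsProbabilityMeasure μ] :
    (μ.prod (Measure.infinitePi (fun _ : ℕ => μ))).map ins = Measure.infinitePi (fun _ : ℕ => μ) := by
  apply Measure.eq_infinitePi
  intro s t ht
  classical
  have hms : MeasurableSet (Set.pi (s : Set ℕ) t) :=
    MeasurableSet.pi s.countable_toSet (fun i _ => ht i)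
  rw [Measure.map_apply ins_meas hms]
  have hpre : ins ⁻¹' (Set.pi (s : Set ℕ) t) =
      (if 1 ∈ s then t 1 else Set.univ) ×ˢ
        (Set.pi (((s.erase 1).preimage dd dd_inj.injOn : Finset ℕ) : Set ℕ) (fun m => t (dd m))) := by
    ext z
    simp only [Set.mem_preimage, Set.mem_pi, Set.mem_prod, Finset.mem_coe, Finset.mem_preimage,
      Finset.mem_erase]
    constructor
    · intro h
      refine ⟨?_, ?_⟩
      · split_ifs with h1
        · have := h 1 h1
          rwa [ins_one] at this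
        · trivial
      · intro m hm
        have := h (dd m) hm.2
        rwa [ins_dd] at this
    · rintro ⟨h1, h2⟩ n hn
      by_cases hn1 : n = 1
      · subst hn1
        rw [ins_one]
        rwa [if_pos hn] at h1
      · obtain ⟨m, rfl⟩ := dd_surj n hn1
        rw [ins_dd]
        exact h2 m ⟨hn1, hn⟩
  rw [hpre, Measure.prod_prod, Measure.infinitePi_pi _ (fun i _ => ht (dd i))]
  have hprod : ∏ i ∈ (s.erase 1).preimage dd dd_inj.injOn, μ (t (dd i)) = ∏ i ∈ s.erase 1, μ (t i) := by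
    apply Finset.prod_preimage dd (s.erase 1) dd_inj.injOn (fun i => μ (t i))
    intro x hx hx2
    exfalso
    apply hx2
    obtain ⟨m, hm⟩ := dd_surj x (Finset.ne_of_mem_erase hx)
    exact ⟨m, hm⟩
  rw [hprod]
  by_cases h1 : 1 ∈ s
  · rw [if_pos h1, Finset.mul_prod_erase s (fun i => μ (t i)) h1]
  · rw [if_neg h1, measure_univ, one_mul, Finset.erase_eq_of_notMem h1]

theorem Wr_congr (N : ℕ) : ∀ (V V' : ℕ → (Fin 3 → ℤ) → ℝ) (x : Fin 3 → ℤ),
    (∀ n, 1 ≤ n → V n = V' n) → Wr N V x = Wr N V' x := by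
  induction N with
  | zero => intro V V' x _; rfl
  | succ N ih =>
    intro V V' x h
    unfold Wr
    congr 1
    apply Finset.sum_congr rfl
    intro e _
    rw [h 1 le_rfl, ih (fun n => V (n + 1)) (fun n => V' (n + 1)) _ (fun n hn => h (n + 1) (by omega))]

theorem W_shift (β : ℝ) (N : ℕ) (x : Fin 3 → ℤ) (z : ((Fin 3 → ℤ) → ℝ) × (ℕ → (Fin 3 → ℤ) → ℝ)) :
    W β N x (fun n => ins z (n + 1)) = W β N x z.2 := by
  unfold W
  apply Wr_congr
  intro n hn
  funext y
  unfold Vb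
  have : ins z (n + 1) = z.2 n := by
    have := ins_dd z n
    have h0 : n ≠ 0 := by omega
    simpa [dd, h0] using this
  show β * ins z (n + 1) y - β ^ 2 / 2 = _
  rw [this]

theorem W_succ (β : ℝ) (N : ℕ) (x : Fin 3 → ℤ) (w : ℕ → (Fin 3 → ℤ) → ℝ) :
    W β (N + 1) x w = (1 / 6) * ∑ e : Fin 3 × Bool,
      Real.exp (β * w 1 (x + stp e) - β ^ 2 / 2) * W β N (x + stp e) (fun n => w (n + 1)) := rfl

theorem slice (μ : Measure ((Fin 3 → ℤ) → ℝ)) (h : Good μ) (β : ℝ) (x y : Fin 3 → ℤ) :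
    Integrable (fun s : (Fin 3 → ℤ) → ℝ => Real.exp (β * s x - β ^ 2 / 2) * Real.exp (β * s y - β ^ 2 / 2)) μ ∧
    ∫ s, Real.exp (β * s x - β ^ 2 / 2) * Real.exp (β * s y - β ^ 2 / 2) ∂μ = Real.exp (β ^ 2 * hh (x - y)) := by
  have h1 : ∀ s : (Fin 3 → ℤ) → ℝ, Real.exp (β * s x - β ^ 2 / 2) * Real.exp (β * s y - β ^ 2 / 2) =
      Real.exp (-β ^ 2) * Real.exp (β * (s x + s y)) := by
    intro s
    rw [← Real.exp_add, ← Real.exp_add]
    congr 1; ring
  have h2 := h.mgf2 β x y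
  have h3 : Integrable (fun s : (Fin 3 → ℤ) → ℝ => Real.exp (β * (s x + s y))) μ := by
    apply Integrable.of_integral_ne_zero
    rw [h2]
    exact (Real.exp_pos _).ne'
  simp only [h1]
  refine ⟨h3.const_mul _, ?_⟩
  rw [integral_const_mul, h2, ← Real.exp_add]
  congr 1; ring

/-- the second moment with two starting points -/
noncomputable def MM (μ : Measure ((Fin 3 → ℤ) → ℝ)) (β : ℝ) (N : ℕ) (x y : Fin 3 → ℤ) : ℝ :=
  ∫ w, W β N x w * W β N y w ∂(PP μ)

theorem MM_zero (μ : Measure ((Fin 3 → ℤ) → ℝ)) (h : Good μ) (β : ℝ) (x y : Fin 3 → ℤ) :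
    MM μ β 0 x y = 1 := by
  have := h.prob
  have hp : IsProbabilityMeasure (PP μ) := by unfold PP; infer_instance
  unfold MM
  have h1 : ∀ w : ℕ → (Fin 3 → ℤ) → ℝ, W β 0 x w * W β 0 y w = 1 := fun w => by
    show (1 : ℝ) * 1 = 1
    norm_num
  simp [h1]

theorem MM_succ (hI : TaskInt) (μ : Measure ((Fin 3 → ℤ) → ℝ)) (h : Good μ) (β : ℝ) (N : ℕ)
    (x y : Fin 3 → ℤ) :
    MM μ β (N + 1) x y = (1 / 36) * ∑ e : Fin 3 × Bool, ∑ e' : Fin 3 × Bool,
      Real.exp (β ^ 2 * hh ((x + stp e) - (y + stp e'))) * MM μ β N (x + stp e) (y + stp e') := by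
  have hpr := h.prob
  obtain ⟨hm, hL, -, -⟩ := hI μ h β N
  have hp : IsProbabilityMeasure (PP μ) := by unfold PP; infer_instance
  -- the integrand of one term, on the product space
  let G : (Fin 3 → ℤ) → (Fin 3 → ℤ) → (((Fin 3 → ℤ) → ℝ) × (ℕ → (Fin 3 → ℤ) → ℝ)) → ℝ :=
    fun a b z => (Real.exp (β * z.1 a - β ^ 2 / 2) * Real.exp (β * z.1 b - β ^ 2 / 2)) *
      (W β N a z.2 * W β N b z.2)
  have hint : ∀ a b, Integrable (fun v => W β N a v * W β N b v) (PP μ) := fun a b =>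
    (hL a).integrable_mul (hL b)
  have hG : ∀ a b, Integrable (G a b) (μ.prod (PP μ)) := fun a b =>
    Integrable.mul_prod (slice μ h β a b).1 (hint a b)
  have hGi : ∀ a b, ∫ z, G a b z ∂(μ.prod (PP μ)) = Real.exp (β ^ 2 * hh (a - b)) * MM μ β N a b := by
    intro a b
    have h1 := integral_prod_mul (μ := μ) (ν := PP μ)
      (fun s : (Fin 3 → ℤ) → ℝ => Real.exp (β * s a - β ^ 2 / 2) * Real.exp (β * s b - β ^ 2 / 2))
      (fun v => W β N a v * W β N b v)
    rw [(slice μ h β a b).2] at h1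
    exact h1
  have hmeas1 : ∀ a, Measurable (W β (N + 1) a) := (hI μ h β (N + 1)).1
  have hmap : (μ.prod (PP μ)).map ins = PP μ := ins_map μ
  have h0 : MM μ β (N + 1) x y = ∫ z, W β (N + 1) x (ins z) * W β (N + 1) y (ins z) ∂(μ.prod (PP μ)) := by
    unfold MM
    conv_lhs => rw [← hmap]
    rw [integral_map ins_meas.aemeasurable]
    exact ((hmeas1 x).mul (hmeas1 y)).aestronglyMeasurable
  have h2 : ∀ z : ((Fin 3 → ℤ) → ℝ) × (ℕ → (Fin 3 → ℤ) → ℝ),
      W β (N + 1) x (ins z) * W β (N + 1) y (ins z) =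
      (1 / 36) * ∑ e : Fin 3 × Bool, ∑ e' : Fin 3 × Bool, G (x + stp e) (y + stp e') z := by
    intro z
    rw [W_succ, W_succ]
    simp only [W_shift, ins_one]
    have h3 : ∀ (a b : ℝ), (1 / 6 * a) * (1 / 6 * b) = 1 / 36 * (a * b) := by intro a b; ring
    rw [h3, Finset.sum_mul_sum]
    congr 1
    apply Finset.sum_congr rfl
    intro e _
    apply Finset.sum_congr rfl
    intro e' _
    show _ = (Real.exp (β * z.1 (x + stp e) - β ^ 2 / 2) * Real.exp (β * z.1 (y + stp e') - β ^ 2 / 2)) *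
      (W β N (x + stp e) z.2 * W β N (y + stp e') z.2)
    ring
  rw [h0]
  simp only [h2]
  rw [integral_const_mul, integral_finsetSum _ (fun e _ => integrable_finsetSum _ (fun e' _ => hG _ _))]
  congr 1
  apply Finset.sum_congr rfl
  intro e _
  rw [integral_finsetSum _ (fun e' _ => hG _ _)]
  apply Finset.sum_congr rfl
  intro e' _
  exact hGi _ _

/-- the `ℓ¹` norm -/
noncomputable def l1 (z : Fin 3 → ℤ) : ℝ := ∑ i : Fin 3, |(z i : ℝ)|

theorem l1_nonneg (z : Fin 3 → ℤ) : 0 ≤ l1 z := Finset.sum_nonneg (fun _ _ => abs_nonneg _)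

theorem nsq_le (z : Fin 3 → ℤ) : nsq z ≤ (l1 z) ^ 2 := by
  unfold nsq l1
  rw [Fin.sum_univ_three, Fin.sum_univ_three]
  have h0 := abs_nonneg (z 0 : ℝ)
  have h1 := abs_nonneg (z 1 : ℝ)
  have h2 := abs_nonneg (z 2 : ℝ)
  have e0 := sq_abs (z 0 : ℝ)
  have e1 := sq_abs (z 1 : ℝ)
  have e2 := sq_abs (z 2 : ℝ)
  nlinarith [mul_nonneg h0 h1, mul_nonneg h0 h2, mul_nonneg h1 h2]

theorem l1_add (z z' : Fin 3 → ℤ) : l1 (z + z') ≤ l1 z + l1 z' := by
  unfold l1
  rw [← Finset.sum_add_distrib]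
  apply Finset.sum_le_sum
  intro i _
  rw [Pi.add_apply, Int.cast_add]
  exact abs_add_le _ _

theorem l1_neg (z : Fin 3 → ℤ) : l1 (-z) = l1 z := by
  unfold l1
  apply Finset.sum_congr rfl
  intro i _
  rw [Pi.neg_apply, Int.cast_neg, abs_neg]

theorem l1_stp (e : Fin 3 × Bool) : l1 (stp e) = 1 := by
  obtain ⟨i, b⟩ := e
  unfold l1 stp
  rw [Finset.sum_eq_single i]
  · cases b <;> simp
  · intro j _ hj
    simp [Pi.single_apply, hj]
  · intro hi
    exact absurd (Finset.mem_univ i) hi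

theorem nsq_nonneg (z : Fin 3 → ℤ) : 0 ≤ nsq z := Finset.sum_nonneg (fun _ _ => sq_nonneg _)

theorem MM_bound (K β : ℝ) (hK : 1 ≤ K) (hI : TaskInt) (μ : Measure ((Fin 3 → ℤ) → ℝ)) (h : Good μ)
    (hardy : ∀ z : Fin 3 → ℤ,
      (1 / 36) * ∑ e : Fin 3 × Bool, ∑ e' : Fin 3 × Bool, Real.exp (β ^ 2 * hh (z + stp e - stp e')) *
        (K + nsq (z + stp e - stp e')) ^ (-(1 / 4) : ℝ) ≤ (K + nsq z) ^ (-(1 / 4) : ℝ)) (N : ℕ) :
    ∀ x y : Fin 3 → ℤ, MM μ β N x y ≤
      (K + nsq (x - y)) ^ (-(1 / 4) : ℝ) * (K + (l1 (x - y) + 2 * N) ^ 2) ^ ((1 / 4) : ℝ) := by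
  induction N with
  | zero =>
    intro x y
    rw [MM_zero μ h]
    have h1 : 0 < K + nsq (x - y) := by have := nsq_nonneg (x - y); linarith
    have h2 : (K + nsq (x - y)) ^ ((1 / 4) : ℝ) ≤ (K + (l1 (x - y) + 2 * (0 : ℕ)) ^ 2) ^ ((1 / 4) : ℝ) := by
      apply Real.rpow_le_rpow h1.le _ (by norm_num)
      have := nsq_le (x - y)
      push_cast
      linarith
    have h3 : (K + nsq (x - y)) ^ (-(1 / 4) : ℝ) * (K + nsq (x - y)) ^ ((1 / 4) : ℝ) = 1 := by
      rw [← Real.rpow_add h1]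
      norm_num
    calc (1 : ℝ) = (K + nsq (x - y)) ^ (-(1 / 4) : ℝ) * (K + nsq (x - y)) ^ ((1 / 4) : ℝ) := h3.symm
      _ ≤ _ := mul_le_mul_of_nonneg_left h2 (Real.rpow_nonneg h1.le _)
  | succ N ih =>
    intro x y
    rw [MM_succ hI μ h]
    set B : ℝ := (K + (l1 (x - y) + 2 * ((N + 1 : ℕ) : ℝ)) ^ 2) ^ ((1 / 4) : ℝ) with hB
    have hterm : ∀ e e' : Fin 3 × Bool,
        Real.exp (β ^ 2 * hh ((x + stp e) - (y + stp e'))) * MM μ β N (x + stp e) (y + stp e') ≤
        (Real.exp (β ^ 2 * hh ((x - y) + stp e - stp e')) *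
          (K + nsq ((x - y) + stp e - stp e')) ^ (-(1 / 4) : ℝ)) * B := by
      intro e e'
      have h1 : (x + stp e) - (y + stp e') = (x - y) + stp e - stp e' := by abel
      have h2 := ih (x + stp e) (y + stp e')
      rw [h1] at h2
      rw [h1, mul_assoc]
      apply mul_le_mul_of_nonneg_left _ (Real.exp_pos _).le
      refine h2.trans ?_
      have h3 : 0 < K + nsq ((x - y) + stp e - stp e') := by
        have := nsq_nonneg ((x - y) + stp e - stp e'); linarith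
      apply mul_le_mul_of_nonneg_left _ (Real.rpow_nonneg h3.le _)
      rw [hB]
      apply Real.rpow_le_rpow _ _ (by norm_num)
      · have := sq_nonneg (l1 (x - y + stp e - stp e') + 2 * (N : ℝ)); linarith
      · have h4 : l1 (x - y + stp e - stp e') ≤ l1 (x - y) + 2 := by
          have a1 := l1_add (x - y + stp e) (-stp e')
          have a2 := l1_add (x - y) (stp e)
          rw [l1_neg, l1_stp, ← sub_eq_add_neg] at a1
          rw [l1_stp] at a2
          linarith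
        have h5 := l1_nonneg (x - y + stp e - stp e')
        have h6 : (0 : ℝ) ≤ N := Nat.cast_nonneg N
        have h7 : (l1 (x - y + stp e - stp e') + 2 * (N : ℝ)) ^ 2 ≤
            (l1 (x - y) + 2 * ((N + 1 : ℕ) : ℝ)) ^ 2 := by
          apply pow_le_pow_left₀ (by linarith)
          push_cast
          linarith
        linarith
    have hsum : (1 / 36) * ∑ e : Fin 3 × Bool, ∑ e' : Fin 3 × Bool,
        Real.exp (β ^ 2 * hh ((x + stp e) - (y + stp e'))) * MM μ β N (x + stp e) (y + stp e') ≤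
        ((1 / 36) * ∑ e : Fin 3 × Bool, ∑ e' : Fin 3 × Bool, Real.exp (β ^ 2 * hh ((x - y) + stp e - stp e')) *
        (K + nsq ((x - y) + stp e - stp e')) ^ (-(1 / 4) : ℝ)) * B := by
      rw [mul_assoc]
      apply mul_le_mul_of_nonneg_left _ (by norm_num)
      rw [Finset.sum_mul]
      apply Finset.sum_le_sum
      intro e _
      rw [Finset.sum_mul]
      apply Finset.sum_le_sum
      intro e' _
      exact hterm e e'
    refine hsum.trans ?_
    apply mul_le_mul_of_nonneg_right (hardy (x - y))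
    rw [hB]
    apply Real.rpow_nonneg
    have := sq_nonneg (l1 (x - y) + 2 * ((N + 1 : ℕ) : ℝ))
    linarith

theorem taskMom : TaskMom := by
  intro hH hHardy hI μ h
  obtain ⟨K, β₀, hK, hβ₀, hard⟩ := hHardy hH
  refine ⟨β₀, K + 4, hβ₀, by linarith, ?_⟩
  intro β hβ hβ2 N hN
  have h1 := MM_bound K β hK hI μ h (hard β hβ hβ2) N 0 0
  have h2 : ∫ w, (W β N 0 w) ^ 2 ∂(PP μ) = MM μ β N 0 0 := by
    unfold MM
    congr 1
    funext w
    ring
  rw [h2]
  refine h1.trans ?_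
  have hl0 : l1 (0 - 0 : Fin 3 → ℤ) = 0 := by simp [l1]
  have hn0 : nsq (0 - 0 : Fin 3 → ℤ) = 0 := by simp [nsq]
  rw [hl0, hn0, add_zero, zero_add]
  have hN1 : (1 : ℝ) ≤ N := by exact_mod_cast hN
  have h3 : K ^ (-(1 / 4) : ℝ) ≤ 1 := by
    rw [Real.rpow_neg (by linarith)]
    apply inv_le_one_of_one_le₀
    exact Real.one_le_rpow hK (by norm_num)
  have h4 : K + (2 * (N : ℝ)) ^ 2 ≤ (K + 4) * (N : ℝ) ^ 2 := by nlinarith [sq_nonneg ((N : ℝ) - 1)]
  have h5 : (K + (2 * (N : ℝ)) ^ 2) ^ ((1 / 4) : ℝ) ≤ ((K + 4) * (N : ℝ) ^ 2) ^ ((1 / 4) : ℝ) :=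
    Real.rpow_le_rpow (by positivity) h4 (by norm_num)
  have h6 : ((K + 4) * (N : ℝ) ^ 2) ^ ((1 / 4) : ℝ) = (K + 4) ^ ((1 / 4) : ℝ) * √(N : ℝ) := by
    rw [Real.mul_rpow (by linarith) (by positivity), Real.sqrt_eq_rpow, ← Real.rpow_natCast,
      ← Real.rpow_mul (by positivity)]
    norm_num
  have h7 : (K + 4) ^ ((1 / 4) : ℝ) ≤ K + 4 := by
    calc (K + 4) ^ ((1 / 4) : ℝ) ≤ (K + 4) ^ (1 : ℝ) :=
          Real.rpow_le_rpow_of_exponent_le (by linarith) (by norm_num)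
      _ = K + 4 := Real.rpow_one _
  calc K ^ (-(1 / 4) : ℝ) * (K + (2 * (N : ℝ)) ^ 2) ^ ((1 / 4) : ℝ)
      ≤ 1 * ((K + 4) ^ ((1 / 4) : ℝ) * √(N : ℝ)) := by
        apply mul_le_mul h3 (h5.trans h6.le) (Real.rpow_nonneg (by positivity) _) zero_le_one
    _ ≤ (K + 4) * √(N : ℝ) := by
        rw [one_mul]
        exact mul_le_mul_of_nonneg_right h7 (Real.sqrt_nonneg _)

end Pool.Agent.H77R3.CP
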